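import Pool.Agent.Q5.LI.Ord

/-!
# Linear independence and central orders of Artin `L`-functions, and the joint random model

`G` is a finite group (the Galois group of `L₀/ℚ`), `(ρ_i)` a finite family of representations with real characters:
the irreducible orthogonal and symplectic ones, and the sums of a unitary one and its conjugate; `φ(p) ∈ G` is a
Frobenius element for the primes `p ∉ S`.
-/

set_option autoImplicit false

open MeasureTheory Filter Topology Set Complex
open scoped Classical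

namespace Pool.Agent.Results.MP_347b49_nt.JointRandomModel

open Pool.Agent.Q5.LI

variable {G : Type} [Group G] [Finite G] {ι : Type} [Fintype ι] {d : ι → ℕ}

/-- `L` is the Artin `L`-function of `ρ`: the Euler product `∏_{p ∉ S} det(1 - p^(-s) ρ(φ(p)))⁻¹` for `Re s > 1`,
continued to a holomorphic function of polynomial growth on a half plane `Re s > 1/2 - η`, `η > 0`. -/
def IsArtin {n : ℕ} (S : Set Nat.Primes) (φ : Nat.Primes → G) (ρ : G →* Matrix (Fin n) (Fin n) ℂ)
    (L : ℂ → ℂ) : Prop :=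
  (∀ s : ℂ, 1 < s.re → HasProd (fun p : Nat.Primes =>
    if p ∈ S then 1 else ((1 - (p : ℂ) ^ (-s) • ρ (φ p)).det)⁻¹) (L s)) ∧
  ∃ (η C : ℝ) (κ : ℕ), 0 < η ∧
    ∀ s : ℂ, 1 / 2 - η < s.re → DifferentiableAt ℂ L s ∧ ‖L s‖ ≤ C * (1 + ‖s‖) ^ κ

/-- `R(x) = ∑_{p^k ≤ x, p ∉ S} Re tr ρ(φ(p)^k)/(k p^{k/2})`; the index `z = (p, k - 1)` -/
noncomputable def primeSum {n : ℕ} (S : Set Nat.Primes) (φ : Nat.Primes → G)
    (ρ : G →* Matrix (Fin n) (Fin n) ℂ) (x : ℝ) : ℝ :=
  ∑ᶠ (z : Nat.Primes × ℕ) (_ : (z.1 : ℝ) ^ (z.2 + 1) ≤ x),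
    (if z.1 ∈ S then 0 else (ρ (φ z.1 ^ (z.2 + 1))).trace).re /
      (((z.2 : ℝ) + 1) * √(z.1 : ℝ) ^ (z.2 + 1))

/-- the error term `E(x) = log x · (log A - R(x) - m (γ + log log x))` (`γ` Euler's constant) -/
noncomputable def error {n : ℕ} (S : Set Nat.Primes) (φ : Nat.Primes → G)
    (ρ : G →* Matrix (Fin n) (Fin n) ℂ) (m A x : ℝ) : ℝ :=
  Real.log x * (Real.log A - primeSum S φ ρ x -
    m * (Real.eulerMascheroniConstant + Real.log (Real.log x)))

/-- no zeros with real part `> 1/2` -/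
def GRH (L : ι → ℂ → ℂ) : Prop := ∀ i, ∀ s : ℂ, 1 / 2 < s.re → L i s ≠ 0

/-- `L` has a zero of order `m` at `1/2`, with leading coefficient `A` -/
def Leading (L : ℂ → ℂ) (m A : ℝ) : Prop :=
  ∃ k : ℕ, m = k ∧ Tendsto (fun s : ℂ => L s / (s - 1 / 2) ^ k) (𝓝[≠] (1 / 2 : ℂ)) (𝓝 (A : ℂ))

/-- the multiplicity of the zero `1/2 + it` of `L` -/
noncomputable def mult (L : ℂ → ℂ) (t : ℝ) : ℕ := (analyticOrderAt L (1 / 2 + t * I)).toNat

/-- the multiset of the positive ordinates of all the `L_i` is linearly independent over `ℚ` -/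
def Independent (L : ι → ℂ → ℂ) : Prop :=
  (∀ t : ℝ, 0 < t → ∑ i, mult (L i) t ≤ 1) ∧ LinearIndepOn ℚ id {t : ℝ | 0 < t ∧ ∑ i, mult (L i) t ≠ 0}

/-- the Bessel function `J₀(x) = ∑ (-(x/2)²)^k/(k!)²` -/
noncomputable def J0 (x : ℝ) : ℝ := ∑' k : ℕ, (-(x / 2) ^ 2) ^ k / ((k.factorial : ℝ) ^ 2)

/-- the factor `J₀(2 |∑ ξ_j e^{i t h_j}|/t)^M` for `t > 0`, and `1` for `t ≤ 0` -/
noncomputable def factor {k : ℕ} (h ξ : Fin k → ℝ) (M : ℕ) (t : ℝ) : ℝ :=
  if 0 < t then J0 (2 * (‖∑ j, (ξ j : ℂ) * exp ((t * h j : ℝ) * I)‖ / t)) ^ M else 1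

/-- **The joint random model** for the `E_i`: for all `h_j ≥ 0` and real `ξ_{ij}` the mean of
`exp (i ∑ ξ_{ij} E_i(x e^{h_j}))` with respect to `dx/x` is the product over `t > 0` and `i` of
`J₀(2 |∑_j ξ_{ij} e^{i t h_j}|/t)^(M_i(t))`. -/
def JointlyFollow (L : ι → ℂ → ℂ) (E : ι → ℝ → ℝ) : Prop :=
  ∀ (k : ℕ) (h : Fin k → ℝ) (ξ : ι → Fin k → ℝ), (∀ j, 0 ≤ h j) →
    ∃ z : ℂ, HasProd (fun t : ℝ => ((∏ i, factor h (ξ i) (mult (L i) t) t : ℝ) : ℂ)) z ∧
      Tendsto (fun X : ℝ => (∫ x in Real.exp 1..X,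
        exp (((∑ i, ∑ j, ξ i j * E i (x * Real.exp (h j)) : ℝ) : ℂ) * I) / x) / Real.log X) atTop (𝓝 z)

/-- the random model for the sum `∑ E_i` -/
def SumFollows (L : ι → ℂ → ℂ) (E : ι → ℝ → ℝ) : Prop :=
  ∀ (k : ℕ) (h ξ : Fin k → ℝ), (∀ j, 0 ≤ h j) →
    ∃ z : ℂ, HasProd (fun t : ℝ => ((factor h ξ (∑ i, mult (L i) t) t : ℝ) : ℂ)) z ∧
      Tendsto (fun X : ℝ => (∫ x in Real.exp 1..X,
        exp (((∑ j, ξ j * ∑ i, E i (x * Real.exp (h j)) : ℝ) : ℂ) * I) / x) / Real.log X) atTop (𝓝 z)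

/-- `(log X)⁻¹ ∫_e^X E(x)² dx/x` is bounded for large `X` -/
def BoundedMeanSquare (E : ℝ → ℝ) : Prop :=
  ∃ B : ℝ, ∀ᶠ X : ℝ in atTop, ∫ x in Real.exp 1..X, E x ^ 2 / x ≤ B * Real.log X

/-! ### proofs -/

theorem factor_eq {k : ℕ} (h ξ : Fin k → ℝ) (M : ℝ → ℕ) (t : ℝ) :
    factor h ξ (M t) t = fac M (kf h ξ t) t := by
  unfold factor fac
  split_ifs with ht
  · congr 1
    unfold J0 bz bt kf
    refine tsum_congr fun k => ?_
    rw [norm_div, Complex.norm_real, Real.norm_of_nonneg ht.le, mul_div_cancel_left₀ _ two_ne_zero]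
  · rfl

theorem shift_ge {x h : ℝ} (hx : Real.exp 1 ≤ x) (hh : 0 ≤ h) : Real.exp 1 ≤ x * Real.exp h := by
  have h1 : 1 ≤ Real.exp h := Real.one_le_exp hh
  have h2 : 0 < x := (Real.exp_pos 1).trans_le hx
  nlinarith

theorem joint_eq {L : ι → ℂ → ℂ} {E W : ι → ℝ → ℝ} (h : ∀ i x, Real.exp 1 ≤ x → E i x = W i x) :
    JointlyFollow L E ↔ JointRandomModel (fun i => multH (L i)) W := by
  unfold JointlyFollow JointRandomModel
  refine forall_congr' fun k => forall_congr' fun h' => forall_congr' fun ξ => forall_congr' fun hh => ?_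
  refine exists_congr fun L' => ?_
  have e : ∀ (i : ι) (t : ℝ), factor h' (ξ i) (mult (L i) t) t = fac (multH (L i)) (kf h' (ξ i) t) t :=
    fun i t => factor_eq h' (ξ i) (multH (L i)) t
  simp only [e]
  refine and_congr_right fun _ => tendsto_congr' ?_
  filter_upwards [eventually_ge_atTop (Real.exp 1)] with X hX
  congr 1
  refine intervalIntegral.integral_congr fun x hx => ?_
  rw [uIcc_of_le hX] at hx
  have e : ∀ i j, E i (x * Real.exp (h' j)) = W i (x * Real.exp (h' j)) :=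
    fun i j => h i _ (shift_ge hx.1 (hh j))
  simp only [e]

theorem sum_eq {L : ι → ℂ → ℂ} {E W : ι → ℝ → ℝ} (h : ∀ i x, Real.exp 1 ≤ x → E i x = W i x) :
    SumFollows L E ↔ RandomModel (tot fun i => multH (L i)) fun x => ∑ i, W i x := by
  unfold SumFollows RandomModel
  refine forall_congr' fun k => forall_congr' fun h' => forall_congr' fun ξ => forall_congr' fun hh => ?_
  refine exists_congr fun L' => ?_
  have e : ∀ t : ℝ, factor h' ξ (∑ i, mult (L i) t) t = fac (tot fun i => multH (L i)) (kf h' ξ t) t :=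
    fun t => factor_eq h' ξ (tot fun i => multH (L i)) t
  simp only [e]
  refine and_congr_right fun _ => tendsto_congr' ?_
  filter_upwards [eventually_ge_atTop (Real.exp 1)] with X hX
  congr 1
  refine intervalIntegral.integral_congr fun x hx => ?_
  rw [uIcc_of_le hX] at hx
  have e : ∀ i j, E i (x * Real.exp (h' j)) = W i (x * Real.exp (h' j)) :=
    fun i j => h i _ (shift_ge hx.1 (hh j))
  simp only [e]

theorem bounded_iff {E f : ℝ → ℝ} (h : ∀ x, Real.exp 1 ≤ x → E x = Real.log x * f x) :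
    BoundedMeanSquare E ↔ Pool.Agent.Q5.BP.BSq f := by
  unfold BoundedMeanSquare Pool.Agent.Q5.BP.BSq
  refine exists_congr fun B => ?_
  constructor
  · intro h1
    filter_upwards [h1, eventually_ge_atTop (Real.exp 1)] with X hX hX1
    refine le_trans (le_of_eq ?_) hX
    refine intervalIntegral.integral_congr fun x hx => ?_
    rw [uIcc_of_le hX1] at hx
    rw [h x hx.1]
  · intro h1
    filter_upwards [h1, eventually_ge_atTop (Real.exp 1)] with X hX hX1
    refine le_trans (le_of_eq ?_) hX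
    refine intervalIntegral.integral_congr fun x hx => ?_
    rw [uIcc_of_le hX1] at hx
    rw [h x hx.1]

/-- **Theorem.** (1) For real `m_i` and `A_i > 0` equivalent: the Riemann hypothesis for all `L_i`, the central orders
`m_i` and leading coefficients `A_i`, and the linear independence of the multiset of all positive ordinates; all
`E_i` have bounded mean squares and jointly follow the random model; all `E_i` have bounded mean squares and their
sum follows the random model.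
(2) The Riemann hypothesis for all `L_i`, linear independence, `L_i(1/2) ≠ 0` for the non-symplectic `i` and central
order `≤ M₀` for the symplectic `i` hold together if and only if for some `A_i > 0` and `m_i`, `m_i = 0` for the
non-symplectic and `m_i ≤ M₀` for the symplectic `i`, the `E_i` have bounded mean squares and jointly follow the
random model. -/
theorem result (S : Set Nat.Primes) (φ : Nat.Primes → G)
    (ρ : (i : ι) → G →* Matrix (Fin (d i)) (Fin (d i)) ℂ) (L : ι → ℂ → ℂ)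
    (hreal : ∀ i, ∀ g : G, ((ρ i g).trace).im = 0) (hL : ∀ i, IsArtin S φ (ρ i) (L i)) :
    (∀ m A : ι → ℝ, (∀ i, 0 < A i) → List.TFAE [
      GRH L ∧ (∀ i, Leading (L i) (m i) (A i)) ∧ Independent L,
      (∀ i, BoundedMeanSquare (error S φ (ρ i) (m i) (A i))) ∧
        JointlyFollow L (fun i => error S φ (ρ i) (m i) (A i)),
      (∀ i, BoundedMeanSquare (error S φ (ρ i) (m i) (A i))) ∧
        SumFollows L (fun i => error S φ (ρ i) (m i) (A i))]) ∧
    (∀ (symplectic : ι → Prop) (M₀ : ℕ),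
      (GRH L ∧ Independent L ∧ (∀ i, ¬ symplectic i → L i (1 / 2) ≠ 0) ∧
        ∀ i, symplectic i → analyticOrderAt (L i) (1 / 2) ≤ M₀) ↔
      ∃ m A : ι → ℝ, (∀ i, 0 < A i) ∧ (∀ i, ¬ symplectic i → m i = 0) ∧ (∀ i, symplectic i → m i ≤ M₀) ∧
        (∀ i, BoundedMeanSquare (error S φ (ρ i) (m i) (A i))) ∧
        JointlyFollow L (fun i => error S φ (ρ i) (m i) (A i))) := by
  have R : ∀ i, RootsH (aA ρ φ S i) := fun i => art_roots i (hreal i)
  have T : ∀ i, TempH (aA ρ φ S i) (L i) := fun i => art_temp i (hL i).2 fun s hs => (hL i).1 s hs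
  have herr : ∀ m A : ι → ℝ, (∀ i, 0 < A i) → ∀ i x, Real.exp 1 ≤ x →
      error S φ (ρ i) (m i) (A i) x = Real.log x * dStarH (aA ρ φ S i) (m i) (A i) x := by
    intro m A hA i x hx
    rw [art_err (T := trS (ρ i) φ S) (fun z => aA_trace i z) (hA i) hx]
    rfl
  have key : ∀ m A : ι → ℝ, (∀ i, 0 < A i) → List.TFAE [
      GRH L ∧ (∀ i, Leading (L i) (m i) (A i)) ∧ Independent L,
      (∀ i, BoundedMeanSquare (error S φ (ρ i) (m i) (A i))) ∧
        JointlyFollow L (fun i => error S φ (ρ i) (m i) (A i)),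
      (∀ i, BoundedMeanSquare (error S φ (ρ i) (m i) (A i))) ∧
        SumFollows L (fun i => error S φ (ρ i) (m i) (A i))] := by
    intro m A hA
    have h1 := real_tfae R T hA (ρ := m)
    have hb : (∀ i, BoundedMeanSquare (error S φ (ρ i) (m i) (A i))) ↔
        ∀ i, Pool.Agent.Q5.BP.BSq (dStarH (aA ρ φ S i) (m i) (A i)) :=
      forall_congr' fun i => bounded_iff (herr m A hA i)
    have hind : Independent L ↔ LinInd (tot fun i => multH (L i)) := Iff.rfl
    have hlead : (GRH L ∧ ∀ i, Leading (L i) (m i) (A i)) ↔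
        ∀ i, RHH (L i) ∧ LeadH (L i) (m i) (A i) := forall_and.symm
    rw [hb, joint_eq (herr m A hA), sum_eq (herr m A hA), hind, ← and_assoc, hlead]
    exact h1
  have key2 : ∀ m A : ι → ℝ, (∀ i, 0 < A i) →
      ((GRH L ∧ (∀ i, Leading (L i) (m i) (A i)) ∧ Independent L) ↔
      ((∀ i, BoundedMeanSquare (error S φ (ρ i) (m i) (A i))) ∧
        JointlyFollow L (fun i => error S φ (ρ i) (m i) (A i)))) :=
    fun m A hA => (key m A hA).out 0 1
  refine ⟨key, fun symplectic M₀ => ?_⟩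
  constructor
  · rintro ⟨h1, h2, h3, h4⟩
    choose r A hA hr using fun i => lead_existsH (R i) (T i) (h1 i)
    have hlead : ∀ i, Leading (L i) (r i : ℝ) (A i) := fun i => ⟨r i, rfl, hr i⟩
    have hord : ∀ i, analyticOrderAt (L i) (1 / 2) = r i := fun i =>
      ord_of_lead ((T i).ana (s := (1 / 2 : ℂ)) (by norm_num)) (by exact_mod_cast (hA i).ne') (hr i)
    have h5 := (key2 (fun i => (r i : ℝ)) A hA).1 ⟨h1, hlead, h2⟩
    refine ⟨fun i => (r i : ℝ), A, hA, fun i hi => ?_, fun i hi => ?_, h5.1, h5.2⟩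
    · have h6 := hord i
      rw [((T i).ana (s := (1 / 2 : ℂ)) (by norm_num)).analyticOrderAt_eq_zero.2 (h3 i hi)] at h6
      have h7 : r i = 0 := by exact_mod_cast h6.symm
      simp only
      rw [h7]
      simp
    · have h6 := h4 i hi
      rw [hord i] at h6
      have h7 : r i ≤ M₀ := by exact_mod_cast h6
      show (r i : ℝ) ≤ M₀
      exact_mod_cast h7
  · rintro ⟨m, A, hA, h1, h2, h3, h4⟩
    obtain ⟨k1, k2, k3⟩ := (key2 m A hA).2 ⟨h3, h4⟩
    refine ⟨k1, k3, fun i hi => ?_, fun i hi => ?_⟩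
    · obtain ⟨r, hr, h5⟩ := k2 i
      rw [h1 i hi] at hr
      have h6 : r = 0 := by exact_mod_cast hr.symm
      have h7 := ord_of_lead ((T i).ana (s := (1 / 2 : ℂ)) (by norm_num))
        (by exact_mod_cast (hA i).ne') h5
      rw [h6] at h7
      exact ((T i).ana (s := (1 / 2 : ℂ)) (by norm_num)).analyticOrderAt_eq_zero.1 (by simpa using h7)
    · obtain ⟨r, hr, h5⟩ := k2 i
      have h7 := ord_of_lead ((T i).ana (s := (1 / 2 : ℂ)) (by norm_num))
        (by exact_mod_cast (hA i).ne') h5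
      have h8 := h2 i hi
      rw [hr] at h8
      rw [h7]
      exact_mod_cast h8

end Pool.Agent.Results.MP_347b49_nt.JointRandomModel
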