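import Mathlib
import Pool.Agent.Q18.P.Zeta

/-!
# Central orders of all Artin `L`-functions of an extension from one one-sided mean of prime ideals

Let `E/K` be a finite Galois extension of number fields with group `G` (`K = ℚ`, `E = L₀` in the problem), and

`P_E(x) = ∏_{N(𝔓) ≤ x} (1 - N(𝔓)^{-1/2})`,  `P_K(x) = ∏_{N(𝔭) ≤ x} (1 - N(𝔭)^{-1/2})`,

the products over the prime ideals of `E` and of `K`. Fix `0 < δ < 1` and suppose that for some `κ` and `B`

`(*)  ∫_{Y^(1-δ)}^Y max (log (P_E(y) / P_K(y)) - κ log log y, 0) dy/y ≤ B log Y`   for arbitrarily large `Y`;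

the set of these `Y` may be as sparse as we like. The condition is one-sided, and says only that in the mean over some
windows the field `E` has not too few prime ideals of small norm, compared with `K`. Then:

1. for every nontrivial irreducible character `χ` of `G` the Artin `L`-function `L(s, χ, E/K)` has no zeros and no poles
   with `Re s > 1/2`: the Riemann hypothesis and Artin's conjecture, for `Re s > 1/2`, for all `χ ≠ 1` at once (at
   `s = 1` this is known, and the theorem says nothing);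
2. `0 ≤ ord_{s=1/2} ζ_E - ord_{s=1/2} ζ_K ≤ κ`;
3. `∑_{χ ≠ 1} (ord_{s=1/2} L(s, χ))² ≤ (ord_{s=1/2} ζ_E)² - (ord_{s=1/2} ζ_K)²`; if `ζ_K(1/2) ≠ 0`, in particular for
   `K = ℚ`, this gives `∑_{χ ≠ 1} (ord_{s=1/2} L(s, χ))² ≤ κ²`, so that `|ord_{s=1/2} L(s, χ)| ≤ κ` for ALL `χ ≠ 1`
   (statement 3 of the problem with `M₀ = κ`, for the symplectic and for all other characters);
4. if `κ < 1`, or if `κ < 2` and `ord_{s=1/2} ζ_E - ord_{s=1/2} ζ_K` is even (which is always so, by the functional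
   equations of the zeta functions), then `L(1/2, χ) ≠ 0` for all `χ ≠ 1` (statement 2, and statement 3 with order 0).

Equivalently: if one of the `L(s, χ)`, `χ ≠ 1`, has a zero or a pole with `Re s > 1/2`, or if `K = ℚ` and one of the
orders at `1/2` is larger than `κ`, then for every `B` the integral in `(*)` is larger than `B log Y` for ALL large `Y`.

No hypothesis is made on `G`, on the holomorphy of the `L(s, χ)`, or on real zeros. The structure `ArtinFam` lists the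
known facts which are used: `ζ_E`, `ζ_K` are meromorphic, with simple poles at `1` and Euler products; and near every
`s₀ ≠ 1` the Artin `L`-functions are meromorphic and satisfy the induction formulae with the Hecke `L`-functions of the
subfields of `E`, which have no poles there (Artin, Hecke, Brauer).

The proof: `ζ_E/ζ_K` has no poles at `s ≠ 1` (Heilbronn characters), in particular no real ones; the theorem on
one-sided means over windows of `Pool.Agent.Q18.W` shows that it has no zeros with `Re s > 1/2` and bounds the order at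
`1/2`; Heilbronn's character `θ = ∑_χ ord_{s₀} L(s, χ) χ` satisfies `|θ(g)| ≤ θ(1) = ord_{s₀} ζ_E`. At the zeros of
`θ(1) - ord ζ_K` the function `θ` is constant, and at `1/2` one uses `∑_χ (ord L(s, χ))² = |G|⁻¹ ∑_g |θ(g)|²`.
-/

set_option autoImplicit false
set_option linter.unusedSectionVars false

namespace Pool.Agent.Results.MP_347b49_nt.OrdersFromPrimeIdeals

open Filter Topology Set Complex NumberField IsDedekindDomain MeasureTheory
open Pool.Agent.Q18.LF (ArtinFam)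
open Pool.Agent.H541R3.ART Pool.Agent.H302R2

/-- `∏_{N(v) ≤ y} (1 - N(v)^{-1/2})`, the product over the prime ideals of `E` -/
noncomputable def idealProduct (E : Type) [Field E] [NumberField E] (y : ℝ) : ℝ :=
  ∏ᶠ v ∈ {v : HeightOneSpectrum (𝓞 E) | (Ideal.absNorm v.asIdeal : ℝ) ≤ y},
    (1 - (Ideal.absNorm v.asIdeal : ℝ) ^ (-(1 / 2) : ℝ))

/-- `∫_{Y^(1-δ)}^Y max (log (P_E(y) / P_K(y)) - κ log log y, 0) dy/y ≤ B log Y` -/
def Bound (K E : Type) [Field K] [NumberField K] [Field E] [NumberField E] (δ κ B Y : ℝ) : Prop :=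
  ∫ y in Y ^ (1 - δ)..Y,
    max (Real.log (idealProduct E y / idealProduct K y) - κ * Real.log (Real.log y)) 0 / y ≤ B * Real.log Y

theorem product_eq (E : Type) [Field E] [NumberField E] (y : ℝ) :
    Pool.Agent.Q18.P.product (1 / 2) ∅ (Pool.Agent.Q18.P.ones E) y = idealProduct E y := by
  unfold Pool.Agent.Q18.P.product idealProduct
  have hs : Pool.Agent.Q18.P.upTo (K := E) ∅ y = {v | (Ideal.absNorm v.asIdeal : ℝ) ≤ y} := by
    ext v
    simp only [Pool.Agent.Q18.P.upTo, Finset.notMem_empty, not_false_iff, true_and, Set.mem_ofPred_eq]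
    rfl
  rw [hs]
  refine finprod_mem_congr rfl fun v _ => ?_
  have h2 : (2 : ℝ) ≤ (Ideal.absNorm v.asIdeal : ℝ) := by exact_mod_cast Pool.Agent.H921R2.TatePole.two_le_nm v
  have h3 : (Ideal.absNorm v.asIdeal : ℝ) ^ (-(1 / 2) : ℝ) < 1 :=
    Real.rpow_lt_one_of_one_lt_of_neg (by linarith) (by norm_num)
  have h4 : ((Pool.Agent.Q18.P.norm v : ℕ) : ℂ) ^ (-((1 / 2 : ℝ) : ℂ)) =
      (((Ideal.absNorm v.asIdeal : ℝ) ^ (-(1 / 2) : ℝ) : ℝ) : ℂ) := by
    rw [Complex.ofReal_cpow (by linarith)]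
    push_cast
    rfl
  rw [Fin.prod_univ_one, h4]
  show ‖1 - (1 : ℂ) * (((Ideal.absNorm v.asIdeal : ℝ) ^ (-(1 / 2) : ℝ) : ℝ) : ℂ)‖ = _
  rw [one_mul, ← Complex.ofReal_one, ← Complex.ofReal_sub, Complex.norm_real, Real.norm_of_nonneg (by linarith)]

theorem half_c : (1 / 2 : ℝ) = (((0 : ℕ) : ℝ) + 1) / 2 := by norm_num

/-- **Central orders of all Artin `L`-functions from one one-sided mean.** -/
theorem result (K E : Type) [Field K] [NumberField K] [Field E] [NumberField E] [Algebra K E] [IsGalois K E]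
    (ZE ZK : ℂ → ℂ) (L : ((E ≃ₐ[K] E) → ℂ) → ℂ → ℂ) (h : ArtinFam K E ZE ZK L) (δ : ℝ) (h0 : 0 < δ) (h1 : δ < 1)
    (κ B : ℝ) (hB : ∃ᶠ Y : ℝ in atTop, Bound K E δ κ B Y) :
    -- (1) no zeros and no poles with `Re s > 1/2`
    (∀ s : ℂ, 1 / 2 < s.re → s ≠ 1 → meromorphicOrderAt ZE s = meromorphicOrderAt ZK s ∧
      ∀ χ ∈ Irr (E ≃ₐ[K] E), (χ ≠ fun _ => 1) → meromorphicOrderAt (L χ) s = 0) ∧
    -- (2), (3) the orders at `1/2`
    ∃ (a b : ℤ) (m : ((E ≃ₐ[K] E) → ℂ) → ℤ), meromorphicOrderAt ZE ((1 / 2 : ℝ) : ℂ) = a ∧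
      meromorphicOrderAt ZK ((1 / 2 : ℝ) : ℂ) = b ∧
      (∀ χ ∈ Irr (E ≃ₐ[K] E), meromorphicOrderAt (L χ) ((1 / 2 : ℝ) : ℂ) = m χ) ∧
      0 ≤ a - b ∧ ((a - b : ℤ) : ℝ) ≤ κ ∧
      ∑ᶠ χ ∈ Irr (E ≃ₐ[K] E) \ {fun _ => 1}, m χ ^ 2 ≤ a ^ 2 - b ^ 2 ∧
      (b = 0 → ((∑ᶠ χ ∈ Irr (E ≃ₐ[K] E) \ {fun _ => 1}, m χ ^ 2 : ℤ) : ℝ) ≤ κ ^ 2 ∧
        ∀ χ ∈ Irr (E ≃ₐ[K] E), (χ ≠ fun _ => 1) → (|m χ| : ℝ) ≤ κ) ∧
      -- (4) nonvanishing
      ((κ < 1 ∨ (κ < 2 ∧ Even (a - b))) → ∀ χ ∈ Irr (E ≃ₐ[K] E), (χ ≠ fun _ => 1) → m χ = 0) := by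
  classical
  have hcE := Pool.Agent.Q18.P.zeta_continues h.top
  have hcK := Pool.Agent.Q18.P.zeta_continues h.bot
  have hpE := Pool.Agent.Q18.P.ones_pure E ∅
  have hpK := Pool.Agent.Q18.P.ones_pure K ∅
  have H1 := Pool.Agent.Q18.P.dw half_c hpE hcE
  have H2 := Pool.Agent.Q18.P.dw half_c hpK hcK
  -- shift of the quotient
  have hshift : (fun s => ZE (((1 / 2 : ℝ) : ℂ) + s)) * (fun s => ZK (((1 / 2 : ℝ) : ℂ) + s))⁻¹ =
      fun s => (ZE * ZK⁻¹) (((1 / 2 : ℝ) : ℂ) + s) := rfl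
  have hord : ∀ (f : ℂ → ℂ) (s : ℂ), meromorphicOrderAt (fun s => f (((1 / 2 : ℝ) : ℂ) + s)) s =
      meromorphicOrderAt f (((1 / 2 : ℝ) : ℂ) + s) := fun f s => Pool.Agent.Q18.W.ord_shift f ((1 / 2 : ℝ) : ℂ) s
  obtain ⟨f1, m1, m2, f2, f3, f4⟩ := Pool.Agent.Q18.P.pair_one H1 H2
    (P1 := Pool.Agent.Q18.P.product (1 / 2) ∅ (Pool.Agent.Q18.P.ones E))
    (P2 := Pool.Agent.Q18.P.product (1 / 2) ∅ (Pool.Agent.Q18.P.ones K))
    (Pool.Agent.Q18.P.product_pos half_c hpE) (Pool.Agent.Q18.P.product_pos half_c hpK)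
    (Pool.Agent.Q18.P.log_product half_c hpE) (Pool.Agent.Q18.P.log_product half_c hpK) h0 h1
    (fun x _ => by
      rw [hshift, hord]
      exact h.real _) (κ := κ) (B := B) (by
      simp only [product_eq]
      exact hB)
  rw [hord, add_zero] at f2 f3
  have hfree : ∀ s : ℂ, 1 / 2 < s.re → meromorphicOrderAt (ZE * ZK⁻¹) s = 0 := by
    intro s hs
    have h2 := f1 (s - ((1 / 2 : ℝ) : ℂ)) (by rw [Complex.sub_re, Complex.ofReal_re]; linarith)
    rwa [hshift, hord, add_sub_cancel] at h2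
  have hne : ((1 / 2 : ℝ) : ℂ) ≠ 1 := by
    intro h2
    have h3 := congrArg Complex.re h2
    rw [Complex.ofReal_re, Complex.one_re] at h3
    norm_num at h3
  refine ⟨fun s hs hs1 => ?_, ?_⟩
  · obtain ⟨-, h2⟩ := h.loc hs1
    exact h2 (hfree s hs)
  · obtain ⟨A, hA, hAE, hAK⟩ := h.artin _ hne
    have ht := (Pool.Agent.Q18.LF.triv_mem (G := (E ≃ₐ[K] E)))
    -- the order of the top zeta function
    have g1 : meromorphicOrderAt (A.Lin ⊥ 1) ((1 / 2 : ℝ) : ℂ) = m1 := by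
      rw [meromorphicOrderAt_congr hAE]
      exact f2
    have g2 : 0 ≤ m1 := by
      have := A.hecke ⊥ 1
      rw [g1] at this
      exact_mod_cast this
    obtain ⟨r, hr⟩ := Int.eq_ofNat_of_zero_le g2
    have g3 : (theta A.ord : (E ≃ₐ[K] E) → ℂ) 1 = r := A.theta_one (by
      rw [g1, hr]
      rfl)
    have g4 : A.ord (fun _ => 1) = m2 := by
      have h2 := A.coe_ord ht
      rw [hA, meromorphicOrderAt_congr hAK, f3] at h2
      exact_mod_cast h2
    have g5 : m2 ≤ m1 := by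
      rw [← g4, hr]
      exact Pool.Agent.Q18.LF.ord_one_le A g3
    have g6 := Pool.Agent.Q18.P.sum_sq A g3
    have htF : (fun _ => 1 : (E ≃ₐ[K] E) → ℂ) ∈ irrF (E ≃ₐ[K] E) := mem_irrF.2 ht
    have g7 : ∑ᶠ χ ∈ Irr (E ≃ₐ[K] E) \ {fun _ => 1}, A.ord χ ^ 2 =
        ∑ χ ∈ (irrF (E ≃ₐ[K] E)).erase (fun _ => 1), A.ord χ ^ 2 := by
      rw [← finsum_mem_coe_finset]
      refine finsum_mem_congr ?_ fun _ _ => rfl
      ext χ
      simp only [Set.mem_sdiff, Set.mem_singleton_iff, Finset.coe_erase, Finset.mem_coe, mem_irrF]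
    have g8 : ∑ χ ∈ (irrF (E ≃ₐ[K] E)).erase (fun _ => 1), A.ord χ ^ 2 + m2 ^ 2 ≤ m1 ^ 2 := by
      rw [← g4, Finset.sum_erase_add _ _ htF, hr]
      exact g6
    have g9 : ∀ χ ∈ Irr (E ≃ₐ[K] E), (χ ≠ fun _ => 1) →
        A.ord χ ^ 2 ≤ ∑ χ ∈ (irrF (E ≃ₐ[K] E)).erase (fun _ => 1), A.ord χ ^ 2 := fun χ hχ hne =>
      Finset.single_le_sum (f := fun χ => A.ord χ ^ 2) (fun χ _ => sq_nonneg _)
        (Finset.mem_erase.2 ⟨hne, mem_irrF.2 hχ⟩)
    refine ⟨m1, m2, A.ord, f2, f3, fun χ hχ => ?_, by linarith, by push_cast; exact f4, ?_, fun hb => ?_,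
      fun hκ χ hχ hne => ?_⟩
    · rw [A.coe_ord hχ, hA]
    · rw [g7]
      linarith
    · rw [hb] at g8 f4
      have h2 : (m1 : ℝ) ≤ κ := by
        have := f4
        push_cast at this
        linarith
      have h3 : (0 : ℝ) ≤ m1 := by exact_mod_cast g2
      have h5 : ((∑ χ ∈ (irrF (E ≃ₐ[K] E)).erase (fun _ => 1), A.ord χ ^ 2 : ℤ) : ℝ) ≤ (m1 : ℝ) ^ 2 := by
        have h4 : ∑ χ ∈ (irrF (E ≃ₐ[K] E)).erase (fun _ => 1), A.ord χ ^ 2 ≤ m1 ^ 2 := by linarith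
        exact_mod_cast h4
      have h6 : (m1 : ℝ) ^ 2 ≤ κ ^ 2 := pow_le_pow_left₀ h3 h2 2
      refine ⟨by rw [g7]; exact h5.trans h6, fun χ hχ hne => ?_⟩
      have h7 : (A.ord χ : ℝ) ^ 2 ≤ κ ^ 2 := by
        have h8 : ((A.ord χ ^ 2 : ℤ) : ℝ) ≤
            ((∑ χ ∈ (irrF (E ≃ₐ[K] E)).erase (fun _ => 1), A.ord χ ^ 2 : ℤ) : ℝ) := by
          exact_mod_cast g9 χ hχ hne
        push_cast at h8 h5
        linarith
      have h8 : 0 ≤ κ := h3.trans h2
      exact abs_le_of_sq_le_sq h7 h8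
    · have h2 : m1 = m2 := by
        have h3 : ((m1 - m2 : ℤ) : ℝ) ≤ κ := by push_cast; exact f4
        rcases hκ with hκ | ⟨hκ, he⟩
        · have h4 : ((m1 - m2 : ℤ) : ℝ) < 1 := lt_of_le_of_lt h3 hκ
          have h5 : m1 - m2 < 1 := by exact_mod_cast h4
          omega
        · have h4 : ((m1 - m2 : ℤ) : ℝ) < 2 := lt_of_le_of_lt h3 hκ
          have h5 : m1 - m2 < 2 := by exact_mod_cast h4
          obtain ⟨t, ht⟩ := he
          omega
      have h3 := g9 χ hχ hne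
      rw [h2] at g8
      have h4 : A.ord χ ^ 2 ≤ 0 := by linarith
      exact pow_eq_zero_iff two_ne_zero |>.1 (le_antisymm h4 (sq_nonneg _))

end Pool.Agent.Results.MP_347b49_nt.OrdersFromPrimeIdeals
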