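import Mathlib
import Pool.Agent.Q190.RV.Quot

/-!
# Central orders of all Artin `L`-functions of an extension from ratios of products over splitting types of primes

Let `E/K` be a finite Galois extension of number fields with group `G` (`K = ℚ`, `E = L₀` in the problem). A prime `v` of
`K` has `g_v` primes above it in `E`, of residue degree `f_v`. Let

`P(y) = ∏_{q_v ≤ y} (1 - q_v^{-f_v/2})^{g_v} / (1 - q_v^{-1/2})`,

a product which depends only on the numbers `f_v` and `g_v`: on the orders of the Frobenius elements, if `v` is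
unramified, and not on their conjugacy classes. We suppose that `ζ_E/ζ_K` is (Aramata-Brauer, and the convexity bound)
holomorphic and of polynomial growth for `Re s > 1/2 - η`. Let `a = ord_{s=1/2} ζ_E`, `b = ord_{s=1/2} ζ_K`. The
inequalities are supposed for all large `y`.

1. ONE exponent `l > 1`, one-sided: if `P(y^l) ≤ Q P(y)`, then
   (a) for every nontrivial irreducible character `χ` of `G` the Artin `L`-function `L(s, χ, E/K)` has no zeros and no
       poles with `Re s > 1/2`, `s ≠ 1` (the Riemann hypothesis and Artin's conjecture for `Re s > 1/2`, for all `χ ≠ 1`);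
   (b) `l^(a-b) ≤ Q`, and if `b = 0`, in particular for `K = ℚ`, then `l^|ord_{s=1/2} L(s, χ)| ≤ Q` for ALL `χ ≠ 1`:
       this is statement 3 of the problem with `M₀ = log Q / log l`, for all characters;
   (c) if `Q < l`, or if `Q < l²` and `a - b` is even (as is always so, by the functional equations), then
       `L(1/2, χ) ≠ 0` for all `χ ≠ 1` (the order is zero). For instance this is so if `P(y²) ≤ 3.99 P(y)`.
2. If also `q P(y) ≤ P(y^l)`, `q > 0`, then `q ≤ l^(a-b)`.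
3. If `P(y^l) / P(y)` converges for one `l > 1`, then (a) holds, and the limit is `l^(a-b)`. So `L(1/2, χ) ≠ 0` for all
   `χ ≠ 1` if the limit is `1`.
4. For every real `κ`: `A (log y)^κ ≤ P(y) ≤ B (log y)^κ` with `A > 0` if and only if `κ = a - b`, and for all `l` in some
   set of positive outer measure in `(1, ∞)` there is a `Q(l)` with `P(y^l) ≤ Q(l) P(y)`. The last condition implies (a).
5. `∑_{χ ≠ 1} (ord_{s=1/2} L(s, χ))² ≤ a² - b²` (known: Stark, Foote-Murty).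

No hypothesis is made on `G`, on the holomorphy of the `L(s, χ)` or on the zeros. The structure `ArtinFam` lists the
known facts which are used, see `Pool.Agent.Q18.LF`.

The proof: `ζ_E/ζ_K` is an Euler product over the primes of `K` with the roots of unity which are the roots of
`(1 - z^f)^g / (1 - z)`; the theorems on ratios apply to it (`Pool.Agent.Q190.RV`); Heilbronn's characters.
-/

set_option autoImplicit false
set_option linter.unusedSectionVars false

namespace Pool.Agent.Results.MP_347b49_nt.SplittingTypeRatios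

open Filter Topology Set Complex NumberField IsDedekindDomain MeasureTheory
open Pool.Agent.Q18.LF (ArtinFam)
open Pool.Agent.H541R3.ART Pool.Agent.H302R2

/-- `P(y) = ∏_{q_v ≤ y} (1 - q_v^{-f_v/2})^{g_v} / (1 - q_v^{-1/2})`, the product over the prime ideals `v` of `K`, with the
norm `q_v`; `f_v` is the residue degree and `g_v` the number of the primes of `E` above `v`. -/
noncomputable def splitProduct (K E : Type) [Field K] [NumberField K] [Field E] [NumberField E] [Algebra K E]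
    (y : ℝ) : ℝ :=
  ∏ᶠ v ∈ {v : HeightOneSpectrum (𝓞 K) | (Ideal.absNorm v.asIdeal : ℝ) ≤ y},
    (1 - (Ideal.absNorm v.asIdeal : ℝ) ^ (-(v.asIdeal.inertiaDegIn (𝓞 E) : ℝ) / 2)) ^
        (v.asIdeal.primesOver (𝓞 E)).ncard /
      (1 - (Ideal.absNorm v.asIdeal : ℝ) ^ (-(1 / 2) : ℝ))

/-- `F` is holomorphic and of polynomial growth in a half plane `Re s > 1/2 - η`, and `F ζ_K = ζ_E` for `Re s > 1`. -/
structure IsQuotient (ZE ZK F : ℂ → ℂ) : Prop where
  growth : ∃ (η C : ℝ) (k : ℕ), 0 < η ∧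
    ∀ s : ℂ, 1 / 2 - η < s.re → DifferentiableAt ℂ F s ∧ ‖F s‖ ≤ C * (1 + ‖s‖) ^ k
  quot : ∀ s : ℂ, 1 < s.re → F s * ZK s = ZE s

/-- `P(y^l) ≤ Q P(y)` for all large `y` -/
def Upper (P : ℝ → ℝ) (l Q : ℝ) : Prop := ∀ᶠ y : ℝ in atTop, P (y ^ l) ≤ Q * P y

/-- `q P(y) ≤ P(y^l)` for all large `y` -/
def Lower (P : ℝ → ℝ) (l q : ℝ) : Prop := ∀ᶠ y : ℝ in atTop, q * P y ≤ P (y ^ l)

/-- `P(y) ≍ (log y)^κ` -/
def OfOrder (P : ℝ → ℝ) (κ : ℝ) : Prop :=
  ∃ A B : ℝ, 0 < A ∧ ∀ᶠ y : ℝ in atTop, A * Real.log y ^ κ ≤ P y ∧ P y ≤ B * Real.log y ^ κ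

/-- There is a set `Λ ⊆ (1, ∞)` of positive (outer) Lebesgue measure such that for every `l ∈ Λ` there is a `Q` with
`P(y^l) ≤ Q P(y)` for all large `y`. -/
def Regular (P : ℝ → ℝ) : Prop :=
  ∃ Λ : Set ℝ, Λ ⊆ Ioi 1 ∧ volume Λ ≠ 0 ∧ ∀ l ∈ Λ, ∃ Q : ℝ, Upper P l Q

/-- For every irreducible character `χ ≠ 1` the function `L χ` has neither zeros nor poles with `Re s > 1/2`, `s ≠ 1`. -/
def Free {G : Type} [Group G] (L : (G → ℂ) → ℂ → ℂ) : Prop :=
  ∀ s : ℂ, 1 / 2 < s.re → s ≠ 1 → ∀ χ ∈ Irr G, (χ ≠ fun _ => 1) → meromorphicOrderAt (L χ) s = 0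

theorem half_c : (1 / 2 : ℝ) = (((0 : ℕ) : ℝ) + 1) / 2 := by norm_num

theorem product_eq (K E : Type) [Field K] [NumberField K] [Field E] [NumberField E] [Algebra K E] [IsGalois K E] :
    splitProduct K E = Pool.Agent.Q18.P.product (1 / 2) ∅ (Pool.Agent.Q190.RV.qroots K E) := by
  funext y
  rw [Pool.Agent.Q190.RV.split_product]
  rfl

/-- **Central orders of all Artin `L`-functions from ratios of products over splitting types.** -/
theorem result (K E : Type) [Field K] [NumberField K] [Field E] [NumberField E] [Algebra K E] [IsGalois K E]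
    (ZE ZK F : ℂ → ℂ) (L : ((E ≃ₐ[K] E) → ℂ) → ℂ → ℂ) (h : ArtinFam K E ZE ZK L) (hF : IsQuotient ZE ZK F) :
    ∃ (a b : ℤ) (m : ℕ) (n : ((E ≃ₐ[K] E) → ℂ) → ℤ), meromorphicOrderAt ZE (1 / 2) = a ∧
      meromorphicOrderAt ZK (1 / 2) = b ∧ a - b = m ∧
      (∀ χ ∈ Irr (E ≃ₐ[K] E), meromorphicOrderAt (L χ) (1 / 2) = n χ) ∧
      -- (1) one exponent
      (∀ l Q : ℝ, 1 < l → Upper (splitProduct K E) l Q → Free L ∧ l ^ m ≤ Q ∧
        (b = 0 → ∀ χ ∈ Irr (E ≃ₐ[K] E), (χ ≠ fun _ => 1) → l ^ (n χ).natAbs ≤ Q) ∧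
        ((Q < l ∨ (Q < l ^ 2 ∧ Even m)) → ∀ χ ∈ Irr (E ≃ₐ[K] E), (χ ≠ fun _ => 1) → n χ = 0)) ∧
      -- (2) lower bounds
      (∀ l q Q : ℝ, 1 < l → 0 < q → Upper (splitProduct K E) l Q → Lower (splitProduct K E) l q → q ≤ l ^ m) ∧
      -- (3) the limit of the ratio
      (∀ l r : ℝ, 1 < l → Tendsto (fun y : ℝ => splitProduct K E (y ^ l) / splitProduct K E y) atTop (𝓝 r) →
        Free L ∧ r = l ^ m ∧ (r = 1 → ∀ χ ∈ Irr (E ≃ₐ[K] E), (χ ≠ fun _ => 1) → n χ = 0)) ∧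
      -- (4) the order of magnitude
      (∀ κ : ℝ, OfOrder (splitProduct K E) κ ↔ κ = m ∧ Regular (splitProduct K E)) ∧
      (Regular (splitProduct K E) → Free L) ∧
      -- (5) the sum of the squares
      ∑ᶠ χ ∈ Irr (E ≃ₐ[K] E) \ {fun _ => 1}, n χ ^ 2 ≤ a ^ 2 - b ^ 2 := by
  classical
  have hb := Pool.Agent.Q190.RV.qroots_bdd K E
  have hH := Pool.Agent.Q190.RV.quot_holo K E h.top h.bot hF.growth hF.quot
  obtain ⟨m, hm⟩ := hH.order_finite' half_c hb
  obtain ⟨o1, o2⟩ := Pool.Agent.Q190.RV.order_law half_c hb hH hm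
  rw [← product_eq] at o1 o2
  have hcast : (((1 / 2 : ℝ)) : ℂ) = 1 / 2 := by push_cast; rfl
  have hne : ((1 / 2 : ℂ)) ≠ 1 := by norm_num
  obtain ⟨η, C, k, hη, hG⟩ := hF.growth
  have hq : ∀ s : ℂ, 1 / 2 - η < s.re → meromorphicOrderAt F s = meromorphicOrderAt (ZE * ZK⁻¹) s := fun s hs =>
    meromorphicOrderAt_congr (Pool.Agent.Q190.RV.quot_eq K E h.top h.bot hη (fun s hs => (hG s hs).1) hF.quot hs)
  -- no zeros
  have hfree : Pool.Agent.Q18.P.NoZeros (1 / 2) F → Free L := by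
    intro hz s hs hs1
    obtain ⟨-, h2⟩ := h.loc hs1
    refine (h2 ?_).2
    rw [← hq s (by linarith)]
    have ha := hH.analytic.2 s hs
    rw [ha.meromorphicOrderAt_eq, ha.analyticOrderAt_eq_zero.2 (hz s hs)]
    rfl
  -- the orders at 1/2
  obtain ⟨A, hA, hAE, hAK⟩ := h.artin _ hne
  have ht := (Pool.Agent.Q18.LF.triv_mem (G := (E ≃ₐ[K] E)))
  have g4 : meromorphicOrderAt ZK (1 / 2) = A.ord (fun _ => 1) := by
    have h2 := A.coe_ord ht
    rw [hA, meromorphicOrderAt_congr hAK] at h2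
    exact h2.symm
  have g0 : (((m : ℤ) : WithTop ℤ)) = meromorphicOrderAt (ZE * ZK⁻¹) (1 / 2) := by
    rw [← hq (1 / 2) (by
      have : ((1 / 2 : ℂ)).re = 1 / 2 := by
        rw [← hcast, Complex.ofReal_re]
      rw [this]
      linarith)]
    have ha := hH.analytic.1
    rw [hcast] at ha
    rw [hcast] at hm
    rw [ha.meromorphicOrderAt_eq, hm]
    rfl
  rw [meromorphicOrderAt_mul (h.top.mero _ (Set.mem_univ _)) (h.bot.mero _ (Set.mem_univ _)).inv,
    meromorphicOrderAt_inv, g4] at g0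
  obtain ⟨a, ha⟩ : ∃ a : ℤ, meromorphicOrderAt ZE (1 / 2) = a := by
    cases hZ : meromorphicOrderAt ZE (1 / 2) with
    | coe a => exact ⟨a, rfl⟩
    | top =>
      rw [hZ] at g0
      exact absurd g0 (by simp)
  have hab : a - A.ord (fun _ => 1) = m := by
    rw [ha] at g0
    have h2 : ((m : ℤ) : WithTop ℤ) = ((a + -(A.ord fun _ => 1) : ℤ) : WithTop ℤ) := by
      rw [g0]
      rfl
    have h3 := WithTop.coe_injective h2
    rw [h3]
    ring
  have g1 : meromorphicOrderAt (A.Lin ⊥ 1) (1 / 2) = a := by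
    rw [meromorphicOrderAt_congr hAE]
    exact ha
  have g2 : 0 ≤ a := by
    have := A.hecke ⊥ 1
    rw [g1] at this
    exact_mod_cast this
  obtain ⟨r, hr⟩ := Int.eq_ofNat_of_zero_le g2
  have g3 : (theta A.ord : (E ≃ₐ[K] E) → ℂ) 1 = r := A.theta_one (by
    rw [g1, hr]
    rfl)
  have g6 := Pool.Agent.Q18.P.sum_sq A g3
  have htF : (fun _ => 1 : (E ≃ₐ[K] E) → ℂ) ∈ irrF (E ≃ₐ[K] E) := mem_irrF.2 ht
  have g7 : ∑ᶠ χ ∈ Irr (E ≃ₐ[K] E) \ {fun _ => 1}, A.ord χ ^ 2 =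
      ∑ χ ∈ (irrF (E ≃ₐ[K] E)).erase (fun _ => 1), A.ord χ ^ 2 := by
    rw [← finsum_mem_coe_finset]
    refine finsum_mem_congr ?_ fun _ _ => rfl
    ext χ
    simp only [Set.mem_sdiff, Set.mem_singleton_iff, Finset.coe_erase, Finset.mem_coe, mem_irrF]
  have g8 : ∑ χ ∈ (irrF (E ≃ₐ[K] E)).erase (fun _ => 1), A.ord χ ^ 2 + A.ord (fun _ => 1) ^ 2 ≤ a ^ 2 := by
    rw [Finset.sum_erase_add _ _ htF, hr]
    exact g6
  have g9 : ∀ χ ∈ Irr (E ≃ₐ[K] E), (χ ≠ fun _ => 1) →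
      A.ord χ ^ 2 ≤ ∑ χ ∈ (irrF (E ≃ₐ[K] E)).erase (fun _ => 1), A.ord χ ^ 2 := fun χ hχ hne =>
    Finset.single_le_sum (f := fun χ => A.ord χ ^ 2) (fun χ _ => sq_nonneg _)
      (Finset.mem_erase.2 ⟨hne, mem_irrF.2 hχ⟩)
  -- order zero
  have hzero : m = 0 → ∀ χ ∈ Irr (E ≃ₐ[K] E), (χ ≠ fun _ => 1) → A.ord χ = 0 := by
    intro h0 χ hχ hne
    have h3 := g9 χ hχ hne
    have h2 : a = A.ord (fun _ => 1) := by
      rw [h0] at hab
      push_cast at hab
      linarith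
    rw [h2] at g8
    have h4 : A.ord χ ^ 2 ≤ 0 := by linarith
    exact pow_eq_zero_iff two_ne_zero |>.1 (le_antisymm h4 (sq_nonneg _))
  have u1 : ∀ l Q : ℝ, 1 < l → Upper (splitProduct K E) l Q → Pool.Agent.Q18.P.NoZeros (1 / 2) F ∧ l ^ m ≤ Q := by
    intro l Q hl h
    unfold Upper at h
    rw [product_eq] at h
    exact Pool.Agent.Q190.RV.one_upper half_c hb hH hm hl h
  refine ⟨a, A.ord (fun _ => 1), m, A.ord, ha, g4, hab, fun χ hχ => by rw [A.coe_ord hχ, hA], fun l Q hl h1 => ?_,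
    fun l q Q hl hq h1 h2 => ?_, fun l r hl h1 => ?_, o1, fun h1 => hfree (o2 h1).1, by rw [g7]; linarith⟩
  · obtain ⟨a1, a2⟩ := u1 l Q hl h1
    refine ⟨hfree a1, a2, fun h0 χ hχ hne => ?_, fun h3 => ?_⟩
    · refine le_trans (pow_le_pow_right₀ hl.le ?_) a2
      have h4 := g9 χ hχ hne
      have h5 : A.ord χ ^ 2 ≤ (m : ℤ) ^ 2 := by
        rw [h0] at g8 hab
        rw [sub_zero] at hab
        rw [← hab]
        linarith
      have h6 : |A.ord χ| ≤ (m : ℤ) := abs_le_of_sq_le_sq h5 (Int.natCast_nonneg m)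
      rw [Int.abs_eq_natAbs] at h6
      exact_mod_cast h6
    · refine hzero ?_
      rcases h3 with h3 | ⟨h3, h4⟩
      · have h5 : l ^ m < l ^ 1 := by
          rw [pow_one]
          exact lt_of_le_of_lt a2 h3
        have := (pow_lt_pow_iff_right₀ hl).1 h5
        omega
      · have h5 := (pow_lt_pow_iff_right₀ hl).1 (lt_of_le_of_lt a2 h3)
        obtain ⟨t, ht⟩ := h4
        omega
  · obtain ⟨a1, a2⟩ := u1 l Q hl h1
    unfold Lower at h2
    rw [product_eq] at h2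
    exact Pool.Agent.Q190.RV.one_lower half_c hb hH hm a1 hl hq h2
  · rw [product_eq] at h1
    obtain ⟨a1, a2⟩ := Pool.Agent.Q190.RV.one_limit half_c hb hH hm hl h1
    refine ⟨hfree a1, a2, fun h3 => hzero ?_⟩
    by_contra hne
    have := one_lt_pow₀ hl hne
    rw [← a2, h3] at this
    exact lt_irrefl _ this

end Pool.Agent.Results.MP_347b49_nt.SplittingTypeRatios
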