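import Pool.Agent.Q28.BP.Prims

/-!
# The truncated central orders of `L(s, ρ ⊗ χ)` for almost all primitive characters `χ`

Let `L₀/ℚ` be a finite Galois extension, `ρ` a representation of its group and `χ` a primitive Dirichlet
character.  The problem asks (statements 2 and 3) whether the order at `s = 1/2` of `L(s, ρ ⊗ χ)` is `0` for
irreducible `ρ` if `ρ ⊗ χ` is unitary or orthogonal and not trivial, and bounded by a constant which does not
depend on the field and the representation if it is symplectic.  For irreducible `ρ` all but `O(1)` of the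
`ρ ⊗ χ` are unitary.  Consider the exponents

  `m_x(ρ ⊗ χ) = log (∏_{p ≤ x} |det (1 - χ(p) p^{-1/2} ρ(Frob_p))|) / log log x`,

which by the analogue of the original conjecture of Birch and Swinnerton-Dyer (Goldfeld; it follows from the
deep form of the Riemann hypothesis) should tend to the central order of `L(s, ρ ⊗ χ)` as `x → ∞` if `ρ ⊗ χ`
is unitary.  We prove, unconditionally,

1. for `100 %` of the primitive characters of conductor at most `Q`, `m_x(ρ ⊗ χ) = o(1)` simultaneously for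
   all `x` between a constant and `Q`;
2. the average of `|m_x(ρ ⊗ χ)|` over these characters is `O((log log x)^(-1/2))` for all `x ≤ Q`.

As in the problem the constants do not depend on `L₀`; they depend on the dimension of `ρ` only.  The proof:
the large sieve for primitive characters gives the fourth moments, uniformly in all intervals of primes, and
then a maximal inequality gives all `x` at once.
-/

set_option autoImplicit false

namespace Pool.Agent.Results.MP_347b49_nt.TruncatedCentralOrders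

open scoped Classical
open Finset NumberField

/-- The primitive Dirichlet characters of conductor at most `Q`. -/
noncomputable def primitives (Q : ℕ) : Finset (Σ q : ℕ, DirichletCharacter ℂ q) :=
  (Icc 1 Q).sigma fun q => (univ : Finset (DirichletCharacter ℂ q)).filter fun χ => χ.IsPrimitive

variable {L : Type} [Field L] [NumberField L] {n : ℕ}

/-- `g` is a Frobenius element at the prime `p`: for a homomorphism `φ` from the ring of integers to an
algebraic closure of `𝔽_p` (i.e. for a prime ideal above `p`), `φ (g x) = φ(x)^p`. -/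
def IsFrobenius (p : ℕ) (g : Gal(L/ℚ)) : Prop :=
  ∃ (_ : Fact p.Prime) (φ : 𝓞 L →+* AlgebraicClosure (ZMod p)), ∀ x : 𝓞 L, φ (g • x) = φ x ^ p

/-- `det (1 - χ(p) p^{-1/2} ρ(g))`. -/
noncomputable def factor (ρ : Gal(L/ℚ) →* Matrix (Fin n) (Fin n) ℂ) {q : ℕ} (χ : DirichletCharacter ℂ q)
    (p : ℕ) (g : Gal(L/ℚ)) : ℂ :=
  (1 - (χ (p : ZMod q) / Real.sqrt p) • ρ g).det

/-- The product over the primes `5 ≤ p ≤ x` not in `S`; `σ p` a Frobenius element. -/
noncomputable def product (ρ : Gal(L/ℚ) →* Matrix (Fin n) (Fin n) ℂ) (σ : ℕ → Gal(L/ℚ)) (S : Finset ℕ)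
    {q : ℕ} (χ : DirichletCharacter ℂ q) (x : ℕ) : ℝ :=
  ∏ p ∈ (range (x + 1)).filter (fun p => p.Prime ∧ 5 ≤ p ∧ p ∉ S), ‖factor ρ χ p (σ p)‖

/-- The truncated central order `m_x(ρ ⊗ χ)`, the exponent `m` for which the product up to `x` is
`(log x) ^ m`. -/
noncomputable def orderAt (ρ : Gal(L/ℚ) →* Matrix (Fin n) (Fin n) ℂ) (σ : ℕ → Gal(L/ℚ)) (S : Finset ℕ)
    {q : ℕ} (χ : DirichletCharacter ℂ q) (x : ℕ) : ℝ :=
  Real.log (product ρ σ S χ x) / Real.log (Real.log x)

theorem rho_eig (ρ : Gal(L/ℚ) →* Matrix (Fin n) (Fin n) ℂ) (g : Gal(L/ℚ)) :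
    Pool.Agent.Q28.BP.EigLe (ρ g) := by
  have hm : Nat.card Gal(L/ℚ) ≠ 0 := Nat.card_pos.ne'
  exact Pool.Agent.Q28.BP.eigLe_of_finite (ρ g) hm (by rw [← map_pow, pow_card_eq_one', map_one])

theorem log_product (ρ : Gal(L/ℚ) →* Matrix (Fin n) (Fin n) ℂ) (σ : ℕ → Gal(L/ℚ)) (S : Finset ℕ)
    {q : ℕ} (χ : DirichletCharacter ℂ q) (x : ℕ) :
    Real.log (product ρ σ S χ x) = ∑ p ∈ (range (x + 1)).filter Nat.Prime,
      Pool.Agent.Q28.BP.lc (S ∪ range 5) (fun p => ρ (σ p)) (χ (p : ZMod q)) p := by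
  rw [← Pool.Agent.Q28.BP.log_prod_lc (S := S ∪ range 5) (M := fun p => ρ (σ p))
    (fun p _ _ => rho_eig ρ (σ p)) (fun p hp => mem_union_right _ (mem_range.2 (by omega)))
    (fun p => χ (p : ZMod q)) (fun p => χ.norm_le_one _)]
  congr 1
  unfold product
  have hset : (range (x + 1)).filter (fun p => p.Prime ∧ 5 ≤ p ∧ p ∉ S) =
      (range (x + 1)).filter (fun p => p.Prime ∧ p ∉ S ∪ range 5) := by
    refine filter_congr fun p _ => ?_
    rw [mem_union, mem_range]
    constructor
    · rintro ⟨h1, h2, h3⟩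
      exact ⟨h1, fun h => h.elim h3 (by omega)⟩
    · rintro ⟨h1, h2⟩
      exact ⟨h1, by by_contra h; exact h2 (Or.inr (by omega)), fun h => h2 (Or.inl h)⟩
  rw [hset]
  rfl

/-- **Truncated central orders.**  (1) For all `n` and `η > 0` there is `X₀` such that for all finite Galois
extensions `L₀/ℚ`, all `n`-dimensional representations `ρ` of `Gal(L₀/ℚ)` (with Frobenius elements `σ p` at
the primes `p ∉ S`, `S` any finite set) and all `Q`, with a proportion of at most `η` exceptions all primitive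
characters `χ` of conductor at most `Q` satisfy `|m_x(ρ ⊗ χ)| ≤ 2 (log log x)^(-1/6)` for all `X₀ ≤ x ≤ Q`.
(2) For all `n` there is `C` such that for all these data and all `16 ≤ x ≤ Q` the mean of `|m_x(ρ ⊗ χ)|` over
the primitive characters `χ` of conductor at most `Q` is at most `C (log log x)^(-1/2)`. -/
theorem result (n : ℕ) :
    (∀ η : ℝ, 0 < η → ∃ X₀ : ℕ, 16 ≤ X₀ ∧ ∀ (L : Type) [Field L] [NumberField L] [IsGalois ℚ L]
      (ρ : Gal(L/ℚ) →* Matrix (Fin n) (Fin n) ℂ) (σ : ℕ → Gal(L/ℚ)) (S : Finset ℕ),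
      (∀ p : ℕ, p.Prime → p ∉ S → IsFrobenius p (σ p)) → ∀ Q : ℕ,
      ∃ 𝓔 ⊆ primitives Q, (𝓔.card : ℝ) ≤ η * (primitives Q).card ∧
        ∀ i ∈ primitives Q, i ∉ 𝓔 → ∀ x : ℕ, X₀ ≤ x → x ≤ Q →
          |orderAt ρ σ S i.2 x| ≤ 2 * Real.log (Real.log x) ^ (-(1 / 6) : ℝ)) ∧
    ∃ C : ℝ, ∀ (L : Type) [Field L] [NumberField L] [IsGalois ℚ L]
      (ρ : Gal(L/ℚ) →* Matrix (Fin n) (Fin n) ℂ) (σ : ℕ → Gal(L/ℚ)) (S : Finset ℕ),
      (∀ p : ℕ, p.Prime → p ∉ S → IsFrobenius p (σ p)) → ∀ Q x : ℕ, 16 ≤ x → x ≤ Q →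
      (∑ i ∈ primitives Q, |orderAt ρ σ S i.2 x|) / (primitives Q).card ≤
        C * Real.log (Real.log x) ^ (-(1 / 2) : ℝ) := by
  have hPP : ∀ Q, primitives Q = Pool.Agent.Q28.BP.prims Q := fun Q => rfl
  have hL : ∀ x : ℕ, 16 ≤ x → 0 < Real.log (Real.log x) := by
    intro x hx
    have := Pool.Agent.Q28.BP.loglog_ge_one hx
    linarith
  constructor
  · intro η hη
    obtain ⟨X₀, hX₀, H⟩ := Pool.Agent.Q28.BP.prims_all n hη
    refine ⟨X₀, hX₀, fun L _ _ _ ρ σ S _ Q => ?_⟩
    obtain ⟨E, hE, hEc, HE⟩ := H (S ∪ range 5) (fun p => ρ (σ p)) (fun p _ _ => rho_eig ρ (σ p))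
      (fun p hp => mem_union_right _ (mem_range.2 (by omega))) Q
    rw [← hPP] at hE hEc HE
    refine ⟨E, hE, hEc, fun i hi hne x hx hxQ => ?_⟩
    have hl := hL x (hX₀.trans hx)
    have h1 := HE i hi hne x hx hxQ
    unfold orderAt
    rw [log_product, abs_div, abs_of_pos hl, div_le_iff₀ hl, mul_assoc]
    refine h1.trans (le_of_eq ?_)
    congr 1
    nth_rewrite 3 [← Real.rpow_one (Real.log (Real.log x))]
    rw [← Real.rpow_add hl]
    norm_num
  · obtain ⟨C, hC, H⟩ := Pool.Agent.Q28.BP.prims_mean n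
    refine ⟨C, fun L _ _ _ ρ σ S _ Q x hx hxQ => ?_⟩
    have hl := hL x hx
    have h1 := H (S ∪ range 5) (fun p => ρ (σ p)) (fun p _ _ => rho_eig ρ (σ p))
      (fun p hp => mem_union_right _ (mem_range.2 (by omega))) Q x hx hxQ
    rw [← hPP] at h1
    have h2 : ∑ i ∈ primitives Q, |orderAt ρ σ S i.2 x| = (∑ i ∈ primitives Q,
        |∑ p ∈ (range (x + 1)).filter Nat.Prime, Pool.Agent.Q28.BP.lc (S ∪ range 5) (fun p => ρ (σ p))
          (Pool.Agent.Q28.BP.chi i p) p|) / Real.log (Real.log x) := by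
      rw [sum_div]
      refine sum_congr rfl fun i _ => ?_
      unfold orderAt
      rw [log_product, abs_div, abs_of_pos hl]
      rfl
    have h3 : (0 : ℝ) < (primitives Q).card := by
      have h4 := Pool.Agent.Q28.BP.prims_lower Q
      rw [← hPP] at h4
      have h5 : 0 < Q ^ 2 := by
        have : 0 < Q := by omega
        positivity
      exact_mod_cast (by omega : 0 < (primitives Q).card)
    rw [h2, div_le_iff₀ h3, div_le_iff₀ hl]
    refine h1.trans (le_of_eq ?_)
    have e : Real.log (Real.log x) ^ (1 / 2 : ℝ) =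
        Real.log (Real.log x) ^ (-(1 / 2) : ℝ) * Real.log (Real.log x) := by
      nth_rewrite 3 [← Real.rpow_one (Real.log (Real.log x))]
      rw [← Real.rpow_add hl]
      norm_num
    rw [e]
    ring

end Pool.Agent.Results.MP_347b49_nt.TruncatedCentralOrders
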